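import Pool.Agent.Helper35.MS.StD

/-!
# Project MS, module PJ2: the heat operator of the test function
-/

set_option autoImplicit false

namespace Helper67.MS

open Helper35.MS Helper35.PI Helper35.PI2 Helper32.CL
open scoped ContDiff Manifold Topology ENNReal BigOperators
open MeasureTheory Set Filter

private theorem d_fm0 {x : ℝ} (h : -1 / 16 < x) : HasDerivAt fm0 (fm1 x) x := by
  have h1 : 1 + 8 * x ≠ 0 := by linarith
  have h2 : 8 + 10 * x ≠ 0 := by linarith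
  have h1' : (25 : ℝ) * (1 + 8 * x) ≠ 0 := by positivity
  have e1 : HasDerivAt (fun x : ℝ => 22 * x) 22 x := by
    simpa using (hasDerivAt_id x).const_mul (22 : ℝ)
  have e2 : HasDerivAt (fun x : ℝ => 25 * (1 + 8 * x)) (25 * 8) x := by
    simpa using (((hasDerivAt_id x).const_mul (8 : ℝ)).const_add 1).const_mul (25 : ℝ)
  have e3 : HasDerivAt (fun x : ℝ => 3 * x ^ 2) (3 * (2 * x)) x := by
    simpa using (hasDerivAt_pow 2 x).const_mul (3 : ℝ)
  have e4 : HasDerivAt (fun x : ℝ => 8 + 10 * x) 10 x := by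
    simpa using ((hasDerivAt_id x).const_mul (10 : ℝ)).const_add 8
  have h3 := ((e1.div e2 h1').const_sub (2 / 3)).add (e3.div e4 h2)
  refine HasDerivAt.congr_deriv (f := fm0) h3 ?_
  unfold fm1
  field_simp
  ring

private theorem d_fm1 {x : ℝ} (h : -1 / 16 < x) : HasDerivAt fm1 (fm2 x) x := by
  have h1 : 1 + 8 * x ≠ 0 := by linarith
  have h2 : 8 + 10 * x ≠ 0 := by linarith
  have h1' : (25 : ℝ) * (1 + 8 * x) ^ 2 ≠ 0 := by positivity
  have h2' : (8 + 10 * x) ^ 2 ≠ 0 := by positivity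
  have e1 : HasDerivAt (fun x : ℝ => 1 + 8 * x) 8 x := by
    simpa using ((hasDerivAt_id x).const_mul (8 : ℝ)).const_add 1
  have e2 : HasDerivAt (fun x : ℝ => 25 * (1 + 8 * x) ^ 2) (25 * (2 * (1 + 8 * x) * 8)) x := by
    simpa using (e1.pow 2).const_mul (25 : ℝ)
  have e3 : HasDerivAt (fun x : ℝ => 48 * x + 30 * x ^ 2) (48 + 30 * (2 * x)) x :=
    (((hasDerivAt_id x).const_mul (48 : ℝ)).add
      ((hasDerivAt_pow 2 x).const_mul (30 : ℝ))).congr_deriv (by simp)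
  have e4 : HasDerivAt (fun x : ℝ => 8 + 10 * x) 10 x := by
    simpa using ((hasDerivAt_id x).const_mul (10 : ℝ)).const_add 8
  have e5 : HasDerivAt (fun x : ℝ => (8 + 10 * x) ^ 2) (2 * (8 + 10 * x) * 10) x :=
    (e4.pow 2).congr_deriv (by simp)
  have h3 := ((hasDerivAt_const x (-22 : ℝ)).div e2 h1').add (e3.div e5 h2')
  refine HasDerivAt.congr_deriv (f := fm1) h3 ?_
  unfold fm2
  field_simp
  ring

private theorem d_gm0 {x : ℝ} (h : -1 / 16 < x) : HasDerivAt gm0 (-gm1 x) x := by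
  have h1 : 1 + 16 * x ≠ 0 := by linarith
  have h1' : (10 : ℝ) * (1 + 16 * x) ≠ 0 := by positivity
  have e2 : HasDerivAt (fun x : ℝ => 10 * (1 + 16 * x)) (10 * 16) x := by
    simpa using (((hasDerivAt_id x).const_mul (16 : ℝ)).const_add 1).const_mul (10 : ℝ)
  have h3 := (hasDerivAt_const x (3 : ℝ)).div e2 h1'
  refine HasDerivAt.congr_deriv (f := gm0) h3 ?_
  unfold gm1
  field_simp
  ring

private theorem d_gm1 {x : ℝ} (h : -1 / 16 < x) : HasDerivAt (fun x => -gm1 x) (gm2 x) x := by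
  have h1 : 1 + 16 * x ≠ 0 := by linarith
  have h1' : (5 : ℝ) * (1 + 16 * x) ^ 2 ≠ 0 := by positivity
  have e1 : HasDerivAt (fun x : ℝ => 1 + 16 * x) 16 x := by
    simpa using ((hasDerivAt_id x).const_mul (16 : ℝ)).const_add 1
  have e2 : HasDerivAt (fun x : ℝ => 5 * (1 + 16 * x) ^ 2) (5 * (2 * (1 + 16 * x) * 16)) x := by
    simpa using (e1.pow 2).const_mul (5 : ℝ)
  have h3 := ((hasDerivAt_const x (24 : ℝ)).div e2 h1').neg
  refine HasDerivAt.congr_deriv (f := fun x => -gm1 x) h3 ?_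
  unfold gm2
  field_simp
  ring

/-- one variable chain rule for the jets, local -/
private theorem chain {φ : EE 2 × ℝ → ℝ} {z : EE 2 × ℝ} (hφ : ContDiffAt ℝ 2 φ z)
    {ψ ψ1 : ℝ → ℝ} {ψ2 : ℝ} (h1 : ∀ᶠ y in 𝓝 (φ z), HasDerivAt ψ (ψ1 y) y)
    (h2 : HasDerivAt ψ1 ψ2 (φ z)) :
    (∀ k, jg (fun z => ψ (φ z)) z k = ψ1 (φ z) * jg φ z k) ∧
    jh (fun z => ψ (φ z)) z = ψ1 (φ z) * jh φ z - ψ2 * ∑ k, jg φ z k ^ 2 := by
  have hev : ∀ᶠ z' in 𝓝 z, ContDiffAt ℝ 2 φ z' := hφ.eventually (by simp)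
  have hfd : ∀ᶠ z' in 𝓝 z, fderiv ℝ (fun z => ψ (φ z)) z' = ψ1 (φ z') • fderiv ℝ φ z' := by
    filter_upwards [hev, hφ.continuousAt.eventually h1] with z' h3 h4
    exact (h4.comp_hasFDerivAt z' (h3.differentiableAt (by simp)).hasFDerivAt).fderiv
  have hjg : ∀ k, (fun z' => jg (fun z => ψ (φ z)) z' k) =ᶠ[𝓝 z]
      fun z' => ψ1 (φ z') * jg φ z' k := by
    intro k
    filter_upwards [hfd] with z' h3
    unfold jg
    rw [h3]; rfl
  have hjt : jt (fun z => ψ (φ z)) z = ψ1 (φ z) * jt φ z := by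
    unfold jt
    rw [hfd.self_of_nhds]; rfl
  have hdf : DifferentiableAt ℝ (fderiv ℝ φ) z :=
    (hφ.fderiv_right (m := 1) (by norm_num)).differentiableAt (by simp)
  have hφd : HasFDerivAt φ (fderiv ℝ φ z) z := (hφ.differentiableAt (by simp)).hasFDerivAt
  have hjgg : ∀ k, jgg (fun z => ψ (φ z)) z k k =
      ψ1 (φ z) * jgg φ z k k + ψ2 * jg φ z k ^ 2 := by
    intro k
    have hd : DifferentiableAt ℝ (fun z' => jg φ z' k) z := by
      unfold jg
      exact hdf.clm_apply (differentiableAt_const _)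
    have h3 := (h2.comp_hasFDerivAt z hφd).mul hd.hasFDerivAt
    have h4 : jgg (fun z => ψ (φ z)) z k k =
        fderiv ℝ (fun z' => ψ1 (φ z') * jg φ z' k) z (ee k, 0) := by
      show fderiv ℝ (fun z' => jg (fun z => ψ (φ z)) z' k) z (ee k, 0) = _
      rw [(hjg k).fderiv_eq]
    rw [h4]
    have h5 : fderiv ℝ (fun z' => ψ1 (φ z') * jg φ z' k) z = _ := h3.fderiv
    rw [h5]
    show ψ1 (φ z) * (fderiv ℝ (fun z' => jg φ z' k) z) (ee k, 0) +
      jg φ z k * (ψ2 * (fderiv ℝ φ z) (ee k, 0)) = _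
    show ψ1 (φ z) * jgg φ z k k + jg φ z k * (ψ2 * jg φ z k) = _
    ring
  refine ⟨fun k => (hjg k).self_of_nhds, ?_⟩
  unfold jh
  rw [hjt, Finset.sum_congr rfl (fun k _ => hjgg k), Finset.sum_add_distrib, ← Finset.mul_sum,
    ← Finset.mul_sum]
  ring

theorem hPJ2 (_hCE0 : StCE0) (hJA : StJA) (hJB : StJB) : StPJ2 := by
  intro z S X V Φ ε x η hS hX hV hε hx hx0 hV0 hη hΦ
  have hS2 : ContDiffAt ℝ 2 S z := hS.of_le (by norm_num)
  have hX2 : ContDiffAt ℝ 2 X z := hX.of_le (by norm_num)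
  have hV2 : ContDiffAt ℝ 2 V z := hV.of_le (by norm_num)
  have hX0 : 0 ≤ X z := hx ▸ hx0
  have hVe : 0 < V z + ε ^ 2 := by positivity
  have hη0 : 0 < η := by rw [hη]; exact Real.sqrt_pos.2 hVe
  have hη2 : η ^ 2 = V z + ε ^ 2 := by rw [hη]; exact Real.sq_sqrt hVe.le
  -- smoothness
  have cf : ContDiffAt ℝ 2 (fun z => fm0 (X z)) z := by
    unfold fm0
    refine ((contDiffAt_const.sub ((contDiffAt_const.mul hX2).div
      (contDiffAt_const.mul (contDiffAt_const.add (contDiffAt_const.mul hX2))) ?_))).add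
      ((contDiffAt_const.mul (hX2.pow 2)).div (contDiffAt_const.add
        (contDiffAt_const.mul hX2)) ?_)
    · positivity
    · positivity
  have cg : ContDiffAt ℝ 2 (fun z => gm0 (X z)) z := by
    unfold gm0
    refine contDiffAt_const.div (contDiffAt_const.mul (contDiffAt_const.add
      (contDiffAt_const.mul hX2))) ?_
    positivity
  have ch : ContDiffAt ℝ 2 (fun z => Real.sqrt (V z + ε ^ 2)) z :=
    (hV2.add contDiffAt_const).sqrt hVe.ne'
  have near : ∀ᶠ y in 𝓝 (X z), -1 / 16 < y := lt_mem_nhds (by linarith)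
  have near2 : ∀ᶠ y in 𝓝 (V z), 0 < y + ε ^ 2 := by
    have : ContinuousAt (fun y : ℝ => y + ε ^ 2) (V z) := by fun_prop
    exact this.eventually (lt_mem_nhds hVe)
  obtain ⟨_, f2⟩ := chain hX2 (ψ := fm0) (ψ1 := fm1) (ψ2 := fm2 (X z))
    (near.mono fun y hy => d_fm0 hy) (d_fm1 (by linarith))
  obtain ⟨g1, g2⟩ := chain hX2 (ψ := gm0) (ψ1 := fun x => -gm1 x) (ψ2 := gm2 (X z))
    (near.mono fun y hy => d_gm0 hy) (d_gm1 (by linarith))
  obtain ⟨s1, s2⟩ := chain hV2 (ψ := fun y => Real.sqrt (y + ε ^ 2))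
    (ψ1 := fun y => 1 / (2 * Real.sqrt (y + ε ^ 2))) (ψ2 := -1 / (4 * η ^ 3))
    (near2.mono fun y hy => ((hasDerivAt_id y).add_const _).sqrt hy.ne') (by
      have h1 : HasDerivAt (fun y => Real.sqrt (y + ε ^ 2)) (1 / (2 * Real.sqrt (V z + ε ^ 2)))
        (V z) := ((hasDerivAt_id (V z)).add_const _).sqrt hVe.ne'
      have h2 := (hasDerivAt_const (V z) (1 : ℝ)).div (h1.const_mul (2 : ℝ))
        (by rw [← hη]; positivity)
      refine HasDerivAt.congr_deriv (f := fun y => 1 / (2 * Real.sqrt (y + ε ^ 2))) h2 ?_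
      rw [← hη]
      field_simp
      ring)
  have hAs := (hJA 2 ℝ z).2.2.1
  have hBs := (hJB 2 0 z).1
  obtain ⟨_, a1, _, _⟩ := hAs _ _ (hS2.sub cf) (cg.mul ch)
  obtain ⟨_, _, _, a2⟩ := hAs _ _ hS2 cf
  obtain ⟨_, b1⟩ := hBs _ _ cg ch
  refine ⟨?_, ?_⟩
  · rw [hΦ]
    exact (hS2.sub cf).add (cg.mul ch)
  · have e0 : jh Φ z = jh (fun z => (S z - fm0 (X z)) + gm0 (X z) * Real.sqrt (V z + ε ^ 2)) z := by
      rw [hΦ]
    have a1' : jh (fun z => (S z - fm0 (X z)) + gm0 (X z) * Real.sqrt (V z + ε ^ 2)) z =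
      jh (fun z => S z - fm0 (X z)) z + jh (fun z => gm0 (X z) * Real.sqrt (V z + ε ^ 2)) z := a1
    rw [e0, a1', a2, b1, f2, g2, s2, Fin.sum_univ_two, Fin.sum_univ_two, Fin.sum_univ_two,
      g1 0, g1 1, s1 0, s1 1, ← hη, ← hx]
    field_simp
    ring

end Helper67.MS
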